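import Pool.Agent.Helper96.FWC.Wlk
import Pool.Agent.Helper38.NS.UQ

/-! Exact entropy calculus: property UQ of the top coordinates of a system over a flat base from the fullness of the
quotients by directions which are independent of the state. -/

set_option autoImplicit false

namespace Pool.Agent.Helper96.FWC

open Filter Topology Pool.Agent.Helper69.RK
open Pool.Agent.Helper31.EC QS Sp Pool.Agent.Helper38.NS

noncomputable section

variable {S : Sp} {ι ν : Type} [Fintype ι] [Fintype ν]

/-- quotients have at most one coordinate less -/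
theorem wg_card {T : Sp} (z u : ν → QS T) (a : ν) {k : ℝ} (h0 : 0 ≤ k) (h1 : k ≤ 1) (A : T.L) :
    Helper31.EC.h (vd (wg z u a) k) A ≤ ((Fintype.card ν : ℝ) - 1) * k := by
  classical
  have e1 : vd (wg z u a) k = (Finset.univ.erase a).sup fun i => dg (wg z u a i) k := by
    apply le_antisymm
    · rw [vd_le]
      intro i
      by_cases hi : i = a
      · have e2 : wg z u a i = 0 := by
          rw [hi]
          unfold wg
          ring
        rw [e2, dg_of_mem_Id (QS.Id T k).zero_mem le_rfl h1]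
        exact bot_le
      · exact Finset.le_sup (f := fun i => dg (wg z u a i) k) (Finset.mem_erase.mpr ⟨hi, Finset.mem_univ i⟩)
    · apply Finset.sup_le
      intro i _
      exact dg_le_vd (wg z u a) k i
  rw [e1]
  refine (h_finsup_le _ _ _).trans ?_
  have e3 : ∀ i ∈ Finset.univ.erase a, Helper31.EC.h (dg (wg z u a i) k) A ≤ k :=
    fun i _ => (h_le_H _ _).trans (H_dg_le _ h0)
  refine (Finset.sum_le_sum e3).trans (le_of_eq ?_)
  rw [Finset.sum_const, Finset.card_erase_of_mem (Finset.mem_univ a), nsmul_eq_mul, Finset.card_univ,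
    Nat.cast_sub (Fintype.card_pos_iff.mpr ⟨a⟩), Nat.cast_one]

/-- property (Q) -/
theorem quoQ {q : ι → QS S} {z : ν → QS S} (w : Wk q z) (hS : STQ q z) {T : Sp} (p : Pj T S) (X : T.L)
    (u : ν → QS T) (a : ν) {k : ℝ} (h0 : 0 ≤ k) (h1 : k ≤ 1) (hX : I (p.map (vd z k)) X (p.map (vd q 1)) = 0)
    (hu : ∀ i, dg (u i) 1 ≤ p.map (vd q 1) ⊔ X) (ha : IsUnit (u a)) :
    Helper31.EC.h (vd (fun i => p.qs (z i) * u a - p.qs (z a) * u i) k) (p.map (vd q 1) ⊔ X) =
      ((Fintype.card ν : ℝ) - 1) * k := by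
  apply le_antisymm
  · exact wg_card (fun i => p.qs (z i)) u a h0 h1 _
  · have h2 := quo w hS p X h0 h1 hX u a ha (by
      rw [vd_le]
      intro i
      rw [sup_comm]
      exact hu i)
    rw [sup_comm X] at h2
    exact h2

/-- THEOREM: UQ from the deficit, a free walk and the fullness of the quotients by independent directions -/
theorem uq_of {q : ι → QS S} {z : ν → QS S} {ρ : ℝ} (w : Wk q z) (hS : STQ q z)
    (hU : ∀ (T : Sp) (p : Pj T S) (E : ∀ k, (T.F k).Ω → Prop) (hE : 0 < ul (T.pr E)) (k : ℝ),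
      0 ≤ k → k ≤ 1 → Helper31.EC.h (restL E hE (p.map (vd z k))) (restL E hE (p.map (vd q 1))) ≤
        (Fintype.card ν - ρ) * k) : UQ S z (vd q 1) ρ where
  U := hU
  Q := fun _ p X u a _ h0 h1 h2 h3 h4 => quoQ w hS p X u a h0 h1 h2 h3 h4

end

end Pool.Agent.Helper96.FWC
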