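import Pool.Agent.Helper31.EC.Cpy

/-! Exact entropy calculus: two extensions of one space can be joined over finitely many functions of the space. -/

set_option autoImplicit false

namespace Pool.Agent.Helper96.FWC

open Finset Filter Topology Pool.Agent.Helper69.RK Pool.Agent.Helper31.EC Pool.Agent.Helper31.EC.QS

noncomputable section

variable {W R S : Sp}

/-- two extensions of `S` which agree in the variable `V` of `S` (and in the base) -/
def join2 (p : Pj W S) (q : Pj R S) {α : ℕ → Type} (V : ∀ k, (S.F k).Ω → α k) : AmD W R where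
  α := fun k => α k × Quotient (S.F k).Z
  f := fun k ω => (V k (p.π k ω), Quotient.mk (S.F k).Z (p.π k ω))
  g := fun k ω => (V k (q.π k ω), Quotient.mk (S.F k).Z (q.π k ω))
  law := by
    intro k a
    have h1 := ms_push (p.π k) (W.F k).μ (fun ω => (V k ω, Quotient.mk (S.F k).Z ω)) a
    have h2 := ms_push (q.π k) (R.F k).μ (fun ω => (V k ω, Quotient.mk (S.F k).Z ω)) a
    rw [p.law k] at h1
    rw [q.law k] at h2
    exact h1.trans h2.symm
  Zr := fun k => Setoid.ker Prod.snd
  hZ1 := by
    intro k ω ω' h h'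
    rw [p.hZ k ω ω' h h']
    exact (Quotient.eq (r := (S.F k).Z)).symm
  hZ2 := by
    intro k ω ω' h h'
    rw [q.hZ k ω ω' h h']
    exact (Quotient.eq (r := (S.F k).Z)).symm
  hn := fun k => (p.hn k).trans (q.hn k).symm

/-- JOIN of two extensions of `S` over a finite family of functions of `S` -/
theorem exists_join (p : Pj W S) (q : Pj R S) {ι : Type} [Fintype ι] (f : ι → QS S) :
    ∃ (D : Sp) (s1 : Pj D W) (s2 : Pj D R), (∀ i, s1.qs (p.qs (f i)) = s2.qs (q.qs (f i))) ∧
      (∀ x y, I (s1.map x) (s2.map y) (s1.map (p.map (QS.vd f 1))) = 0) ∧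
      (∀ r, s1.map (p.map (QS.vd f r)) = s2.map (q.map (QS.vd f r))) := by
  classical
  have key : ∃ (D : Sp) (s1 : Pj D W) (s2 : Pj D R),
      (∀ i : Fin (Fintype.card ι), s1.qs (p.qs (f ((Fintype.equivFin ι).symm i))) =
        s2.qs (q.qs (f ((Fintype.equivFin ι).symm i)))) ∧
      (∀ x y, I (s1.map x) (s2.map y)
        (s1.map (p.map (QS.vd (fun i => f ((Fintype.equivFin ι).symm i)) 1))) = 0) := by
    set g : Fin (Fintype.card ι) → TR S := fun i => QS.rep (f ((Fintype.equivFin ι).symm i)) with hg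
    have hgf : ∀ i, QS.mk (g i) = f ((Fintype.equivFin ι).symm i) := fun i => QS.mk_rep _
    set V := (TR.vec g).cellv 1 with hV
    have hVb : Sp.Bdd V := (TR.vec g).bdd 1
    have hvd : Sp.io V = QS.vd (fun i => f ((Fintype.equivFin ι).symm i)) 1 := by
      show (TR.vec g).dg 1 = _
      rw [TR.vec_dg_eq]
      unfold QS.vd
      congr 1
      funext i
      beta_reduce
      rw [← hgf i, QS.dg_mk _ le_rfl]
    refine ⟨(join2 p q V).sp, (join2 p q V).p1, (join2 p q V).p2, fun i => ?_, fun x y => ?_⟩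
    · rw [← hgf i]
      show QS.mk ((join2 p q V).p1.tr (p.tr (g i))) = QS.mk ((join2 p q V).p2.tr (q.tr (g i)))
      rw [QS.mk_eq]
      refine ⟨fun _ _ => True, fun _ => 1, Sp.Typ_true, Sp.Sub_const _ zero_le_one,
        Eventually.of_forall fun k w hw _ => ?_⟩
      have h1 := ((join2 p q V).supp k w hw).1
      have h1' : (V k (p.π k w.1), Quotient.mk (S.F k).Z (p.π k w.1)) =
          (V k (q.π k w.2), Quotient.mk (S.F k).Z (q.π k w.2)) := h1
      rw [Prod.mk.injEq] at h1'
      have h2 := (TR.vec g).cellv_close 1 k (p.π k w.1) (q.π k w.2) h1'.1 i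
      have h3 : (join2 p q V).sp.dl 1 k = S.dl 1 k := by
        unfold Sp.dl
        rw [show ((join2 p q V).sp.F k).n = (W.F k).n from rfl, p.hn k]
      rw [one_mul, h3]
      exact h2
    · have h3 : Sp.io (join2 p q V).f = p.map (Sp.io V) := by
        rw [← Pj.io_with_base hVb, p.map_io]
        rfl
      have h4 : Sp.Bdd (join2 p q V).f := by
        have h5 := (p.bdd_iff (fun k ω => (V k ω, Quotient.mk (S.F k).Z ω))).mpr (Pj.bdd_with_base hVb)
        exact h5
      have h1 := (join2 p q V).indep h4 x y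
      rw [h3, hvd] at h1
      exact h1
  obtain ⟨D, s1, s2, h1, h2⟩ := key
  have h3 : ∀ r, vd (fun i => f ((Fintype.equivFin ι).symm i)) r = vd f r := by
    intro r
    apply le_antisymm
    · rw [vd_le]
      exact fun i => dg_le_vd f r _
    · rw [vd_le]
      intro i
      have h4 := dg_le_vd (fun i => f ((Fintype.equivFin ι).symm i)) r (Fintype.equivFin ι i)
      beta_reduce at h4
      rw [Equiv.symm_apply_apply] at h4
      exact h4
  have h5 : ∀ i, s1.qs (p.qs (f i)) = s2.qs (q.qs (f i)) := by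
    intro i
    have h6 := h1 (Fintype.equivFin ι i)
    rw [Equiv.symm_apply_apply] at h6
    exact h6
  refine ⟨D, s1, s2, h5, ?_, ?_⟩
  · intro x y
    rw [← h3]
    exact h2 x y
  · intro r
    rw [← p.qs_vd, ← q.qs_vd, ← s1.qs_vd, ← s2.qs_vd]
    congr 1
    funext i
    exact h5 i

end

end Pool.Agent.Helper96.FWC
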