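import Pool.Agent.Helper96.FWC.Jn
import Pool.Agent.Helper96.FLT.Rd

/-! Exact entropy calculus: quotients of a vector of top coordinates by a direction which depends on frozen data are
full, if they are full for directions which are independent of the whole state (free walks, resampling). -/

set_option autoImplicit false

namespace Pool.Agent.Helper96.FWC

open Pool.Agent.Helper31.EC QS Pool.Agent.Helper38.NS Pool.Agent.Helper96.FLT

noncomputable section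

variable {S : Sp} {ι ν : Type} [Fintype ι] [Fintype ν]

/-- a free walk over the base functions `q` and the top coordinates `z`: `E` are the data of the walk, `p0` the state
at its start, `p1` the state at its end -/
structure Wk (q : ι → QS S) (z : ν → QS S) where
  D : Sp
  p0 : Pj D S
  p1 : Pj D S
  E : D.L
  Y : ν → QS D
  hz : ∀ i, p1.qs (z i) = p0.qs (z i) + Y i
  hY : vd Y 1 ≤ p0.map (vd q 1) ⊔ E
  hq : p1.map (vd q 1) ≤ p0.map (vd q 1) ⊔ E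
  he : I (p0.map (vd z 1)) E (p0.map (vd q 1)) = 0
  hr : I (p1.map (vd q 1)) (p0.map (vd q 1 ⊔ vd z 1)) ⊥ = 0

/-- the coordinates of `z` modulo the direction `u`, the coordinate `a` of `u` is used as denominator -/
def wg {T : Sp} (z u : ν → QS T) (a : ν) (i : ν) : QS T := z i * u a - z a * u i

/-- the quotients by directions which are independent of the whole state are full -/
def STQ (q : ι → QS S) (z : ν → QS S) : Prop :=
  ∀ (T : Sp) (p : Pj T S) (u : ν → QS T) (a : ν), IsUnit (u a) → (∀ y : S.L, I (vd u 1) (p.map y) ⊥ = 0) →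
    ∀ k : ℝ, 0 ≤ k → k ≤ 1 →
      h (vd (wg (fun i => p.qs (z i)) u a) k) (p.map (vd q 1) ⊔ vd u 1) = ((Fintype.card ν : ℝ) - 1) * k

theorem vd_le_of_mem {T : Sp} {f g : ν → QS T} {k : ℝ} (hk : k ≤ 1) (hfg : ∀ i, f i - g i ∈ QS.Id T k) :
    vd f k = vd g k := by
  unfold vd
  congr 1
  funext i
  exact dg_eq_of_sub_mem (hfg i) le_rfl hk

theorem wg_le {T : Sp} (z u : ν → QS T) (a : ν) {k : ℝ} (hk : k ≤ 1) : vd (wg z u a) k ≤ vd z k ⊔ vd u 1 := by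
  rw [vd_le]
  intro i
  unfold wg
  have h1 := dg_sub_le (z i * u a) (z a * u i) hk
  have h2 := dg_mul_le (z i) (u a) hk
  have h3 := dg_mul_le (z a) (u i) hk
  have h4 := dg_le_vd z k i
  have h5 := dg_le_vd z k a
  have h6 := (dg_mono (u i) hk).trans (dg_le_vd u 1 i)
  have h7 := (dg_mono (u a) hk).trans (dg_le_vd u 1 a)
  order

omit [Fintype ν] in
theorem wg_map {T R : Sp} (p : Pj T R) (z u : ν → QS R) (a i : ν) :
    p.qs (wg z u a i) = wg (fun i => p.qs (z i)) (fun i => p.qs (u i)) a i := by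
  unfold wg
  rw [map_sub, map_mul, map_mul]

/-- THEOREM QUO -/
theorem quo {q : ι → QS S} {z : ν → QS S} (w : Wk q z) (hS : STQ q z) {T : Sp} (p : Pj T S) (X : T.L) {k : ℝ}
    (h0 : 0 ≤ k) (h1 : k ≤ 1) (hX : I (p.map (vd z k)) X (p.map (vd q 1)) = 0) (u : ν → QS T) (a : ν)
    (ha : IsUnit (u a)) (hu : vd u 1 ≤ X ⊔ p.map (vd q 1)) :
    ((Fintype.card ν : ℝ) - 1) * k ≤ h (vd (wg (fun i => p.qs (z i)) u a) k) (X ⊔ p.map (vd q 1)) := by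
  obtain ⟨E, s1, s2, c, ci, -⟩ := exists_join p w.p0 (Sum.elim q z)
  -- informations of the joint space
  obtain ⟨Q0, hQ0⟩ : ∃ Q0, Q0 = s1.map (p.map (vd q 1)) := ⟨_, rfl⟩
  obtain ⟨Z0, hZ0⟩ : ∃ Z0, Z0 = s1.map (p.map (vd z 1)) := ⟨_, rfl⟩
  obtain ⟨Zk, hZk⟩ : ∃ Zk, Zk = s1.map (p.map (vd z k)) := ⟨_, rfl⟩
  obtain ⟨X', hX'⟩ : ∃ X', X' = s1.map X := ⟨_, rfl⟩
  obtain ⟨M, hM⟩ : ∃ M, M = s2.map w.E := ⟨_, rfl⟩
  obtain ⟨Q1, hQ1⟩ : ∃ Q1, Q1 = s2.map (w.p1.map (vd q 1)) := ⟨_, rfl⟩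
  obtain ⟨Z1, hZ1⟩ : ∃ Z1, Z1 = s2.map (w.p1.map (vd z k)) := ⟨_, rfl⟩
  have cq : ∀ i, s1.qs (p.qs (q i)) = s2.qs (w.p0.qs (q i)) := fun i => c (Sum.inl i)
  have cz : ∀ i, s1.qs (p.qs (z i)) = s2.qs (w.p0.qs (z i)) := fun i => c (Sum.inr i)
  have eQ0 : s2.map (w.p0.map (vd q 1)) = Q0 := by
    rw [hQ0, ← w.p0.qs_vd, ← p.qs_vd, ← s1.qs_vd, ← s2.qs_vd]
    exact (vd_congr cq 1).symm
  have eZ : ∀ r, s2.map (w.p0.map (vd z r)) = s1.map (p.map (vd z r)) := by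
    intro r
    rw [← w.p0.qs_vd, ← p.qs_vd, ← s1.qs_vd, ← s2.qs_vd]
    exact (vd_congr cz r).symm
  have lZ : Zk ≤ Z0 := by
    rw [hZk, hZ0]
    exact s1.map_mono (p.map_mono (vd_mono z h1))
  -- independences
  have F1 : I Z0 M Q0 = 0 := by
    have h2 := s2.I_map (w.p0.map (vd z 1)) w.E (w.p0.map (vd q 1))
    rw [w.he, eQ0, eZ, ← hZ0, ← hM] at h2
    exact h2
  have F2 : ∀ y, I X' (s2.map y) (Q0 ⊔ Z0) = 0 := by
    intro y
    have h2 := ci X y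
    rw [vd_sum, p.map_sup, s1.map_sup, ← hQ0, ← hZ0, ← hX'] at h2
    exact h2
  have F3 : I Zk X' Q0 = 0 := by
    have h2 := s1.I_map (p.map (vd z k)) X (p.map (vd q 1))
    rw [hX, ← hZk, ← hX', ← hQ0] at h2
    exact h2
  have F4 : I Q1 (Q0 ⊔ Z0) ⊥ = 0 := by
    have h2 := s2.I_map (w.p1.map (vd q 1)) (w.p0.map (vd q 1 ⊔ vd z 1)) ⊥
    rw [w.hr, s2.map_bot, w.p0.map_sup, s2.map_sup, eQ0, eZ, ← hZ0, ← hQ1] at h2
    exact h2
  have lq : Q1 ≤ Q0 ⊔ M := by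
    have h2 := s2.map_mono w.hq
    rw [s2.map_sup, eQ0, ← hM, ← hQ1] at h2
    exact h2
  have lY : vd (fun i => s2.qs (w.Y i)) 1 ≤ Q0 ⊔ M := by
    rw [s2.qs_vd]
    have h2 := s2.map_mono w.hY
    rw [s2.map_sup, eQ0, ← hM] at h2
    exact h2
  have ez : ∀ i, s2.qs (w.p1.qs (z i)) = s1.qs (p.qs (z i)) + s2.qs (w.Y i) := by
    intro i
    rw [w.hz i, map_add, cz i]
  -- the digits of level k
  have G1 : I M (Z0 ⊔ X') Q0 = 0 := by
    refine ind_add (ind_symm F1) (C' := Z0 ⊔ Q0) ?_ rfl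
    have h2 := F2 w.E
    rw [← hM, sup_comm Q0 Z0] at h2
    exact ind_symm h2
  have G2 : I Zk (X' ⊔ M) Q0 = 0 := by
    refine ind_add F3 (C' := X' ⊔ Q0) ?_ rfl
    exact ind_symm (ind_of G1 (by order) (by order) (by order) (by order))
  have hZd : vd (fun i => s2.qs (w.p1.qs (z i))) k = Z1 := by
    rw [hZ1, ← w.p1.qs_vd, ← s2.qs_vd]
  have hZd0 : vd (fun i => s1.qs (p.qs (z i))) k = Zk := by
    rw [hZk, ← p.qs_vd, ← s1.qs_vd]
  have lZ1 : Z1 ≤ Zk ⊔ (Q0 ⊔ M) := by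
    rw [← hZd, ← hZd0, vd_le]
    intro i
    rw [ez i]
    have a1 := dg_add_le (s1.qs (p.qs (z i))) (s2.qs (w.Y i)) h1
    have a2 := dg_le_vd (fun i => s1.qs (p.qs (z i))) k i
    have a3 := (dg_mono (s2.qs (w.Y i)) h1).trans (dg_le_vd (fun i => s2.qs (w.Y i)) 1 i)
    beta_reduce at a2
    order
  have lZk : Zk ≤ Z1 ⊔ (Q0 ⊔ M) := by
    rw [← hZd, ← hZd0, vd_le]
    intro i
    have a0 : s1.qs (p.qs (z i)) = s2.qs (w.p1.qs (z i)) - s2.qs (w.Y i) := by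
      rw [ez i]
      ring
    rw [a0]
    have a1 := dg_sub_le (s2.qs (w.p1.qs (z i))) (s2.qs (w.Y i)) h1
    have a2 := dg_le_vd (fun i => s2.qs (w.p1.qs (z i))) k i
    have a3 := (dg_mono (s2.qs (w.Y i)) h1).trans (dg_le_vd (fun i => s2.qs (w.Y i)) 1 i)
    beta_reduce at a2
    order
  -- the end point: count
  have hS1 : h Z1 Q1 = h Zk Q0 := by
    rw [hZ1, hQ1, hZk, hQ0, s2.h_map, w.p1.h_map, s1.h_map, p.h_map]
  have G3 : I Z1 (X' ⊔ M ⊔ Q0) Q1 = 0 := by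
    apply ind_of_h
    rw [hS1]
    have b1 : h Zk (X' ⊔ M ⊔ Q0) = h Zk Q0 := I_zero_iff_h.mp G2
    have b2 : X' ⊔ M ⊔ Q0 ⊔ Q1 = X' ⊔ M ⊔ Q0 := by order
    rw [b2, ← b1]
    unfold h
    have b3 : Zk ⊔ (X' ⊔ M ⊔ Q0) = Z1 ⊔ (X' ⊔ M ⊔ Q0) := by order
    rw [b3]
  have G4 : I Q1 (Q0 ⊔ Z0 ⊔ X') ⊥ = 0 := by
    refine ind_add F4 (C' := Q0 ⊔ Z0 ⊔ ⊥) ?_ rfl
    rw [sup_bot_eq]
    have h2 := F2 (w.p1.map (vd q 1))
    rw [← hQ1] at h2
    exact ind_symm h2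
  have G5 : I (X' ⊔ Q0) (Q1 ⊔ Z1) ⊥ = 0 := by
    refine ind_add (C' := Q1 ⊔ ⊥) (ind_symm (ind_of G4 le_rfl bot_le le_sup_left (by order))) ?_ rfl
    rw [sup_bot_eq]
    exact ind_symm (ind_of G3 le_rfl le_sup_right le_sup_left (by order))
  -- resampling of the state
  have hrd : ∀ i, ∃ g : QS S, z i - g ∈ QS.Id S k ∧ dg g 1 = dg (z i) k := fun i => exists_rd (z i) h0 h1
  choose g hg1 hg2 using hrd
  have hgd : vd g 1 = vd z k := by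
    unfold vd
    congr 1
    funext i
    exact hg2 i
  obtain ⟨G, g1, g2, cg, cgi, -⟩ := exists_copyF (s2.comp w.p1) (Sum.elim q g)
  have cg1 : ∀ i, g1.qs (s2.qs (w.p1.qs (q i))) = g2.qs (q i) := by
    intro i
    have h2 := cg (Sum.inl i)
    rw [Pj.comp_qs] at h2
    exact h2
  have cg2 : ∀ i, g1.qs (s2.qs (w.p1.qs (g i))) = g2.qs (g i) := by
    intro i
    have h2 := cg (Sum.inr i)
    rw [Pj.comp_qs] at h2
    exact h2
  have ecm : (s2.comp w.p1).map (vd (Sum.elim q g) 1) = Q1 ⊔ Z1 := by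
    rw [vd_sum, hgd, Pj.comp_map, w.p1.map_sup, s2.map_sup, ← hQ1, ← hZ1]
  have U0 : vd (fun i => s1.qs (u i)) 1 ≤ X' ⊔ Q0 := by
    rw [s1.qs_vd, hX', hQ0, ← s1.map_sup]
    exact s1.map_mono hu
  obtain ⟨V, hV⟩ : ∃ V, V = vd (fun i => s1.qs (u i)) 1 := ⟨_, rfl⟩
  have hind : ∀ y : S.L, I (vd (fun i => g1.qs (s1.qs (u i))) 1) (g2.map y) ⊥ = 0 := by
    intro y
    rw [g1.qs_vd, ← hV]
    rw [← hV] at U0
    have h2 : I V (Q1 ⊔ Z1) ⊥ = 0 := ind_symm (ind_of (ind_symm G5) le_rfl bot_le le_sup_left (by order))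
    have h3 := g1.I_map V (Q1 ⊔ Z1) ⊥
    rw [h2, g1.map_bot] at h3
    have h4 := cgi V y
    rw [ecm] at h4
    have h5 := ind_add h3 (C' := g1.map (Q1 ⊔ Z1) ⊔ ⊥) (by rw [sup_bot_eq]; exact h4) rfl
    exact ind_of h5 le_rfl bot_le le_sup_left (by order)
  have hua : IsUnit (g1.qs (s1.qs (u a))) := (ha.map s1.qs).map g1.qs
  have key := hS G g2 (fun i => g1.qs (s1.qs (u i))) a hua hind k h0 h1
  -- back to the end point of the walk
  have e1 : vd (wg (fun i => g2.qs (z i)) (fun i => g1.qs (s1.qs (u i))) a) k =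
      g1.map (vd (wg (fun i => s2.qs (w.p1.qs (z i))) (fun i => s1.qs (u i)) a) k) := by
    rw [← g1.qs_vd]
    apply vd_le_of_mem h1
    intro i
    rw [wg_map]
    unfold wg
    have a1 : ∀ j, g2.qs (z j) - g1.qs (s2.qs (w.p1.qs (z j))) ∈ QS.Id G k := by
      intro j
      have b1 := (g2.qs_mem_Id h1).mpr (hg1 j)
      have b2 := (g1.qs_mem_Id h1).mpr ((s2.qs_mem_Id h1).mpr ((w.p1.qs_mem_Id h1).mpr (hg1 j)))
      rw [map_sub] at b1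
      rw [map_sub, map_sub, map_sub, cg2 j] at b2
      have b3 := (QS.Id G k).sub_mem b1 b2
      have b4 : g2.qs (z j) - g2.qs (g j) - (g1.qs (s2.qs (w.p1.qs (z j))) - g2.qs (g j)) =
          g2.qs (z j) - g1.qs (s2.qs (w.p1.qs (z j))) := by ring
      rw [b4] at b3
      exact b3
    have a2 := (QS.Id G k).mul_mem_right (g1.qs (s1.qs (u a))) (a1 i)
    have a3 := (QS.Id G k).mul_mem_right (g1.qs (s1.qs (u i))) (a1 a)
    have a4 := (QS.Id G k).sub_mem a2 a3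
    have a5 : (g2.qs (z i) - g1.qs (s2.qs (w.p1.qs (z i)))) * g1.qs (s1.qs (u a)) -
        (g2.qs (z a) - g1.qs (s2.qs (w.p1.qs (z a)))) * g1.qs (s1.qs (u i)) =
        g2.qs (z i) * g1.qs (s1.qs (u a)) - g2.qs (z a) * g1.qs (s1.qs (u i)) -
        (g1.qs (s2.qs (w.p1.qs (z i))) * g1.qs (s1.qs (u a)) -
          g1.qs (s2.qs (w.p1.qs (z a))) * g1.qs (s1.qs (u i))) := by ring
    rw [a5] at a4
    exact a4
  have e2 : g2.map (vd q 1) ⊔ vd (fun i => g1.qs (s1.qs (u i))) 1 = g1.map (Q1 ⊔ V) := by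
    rw [g1.qs_vd, ← hV, g1.map_sup]
    congr 1
    rw [hQ1, ← w.p1.qs_vd, ← s2.qs_vd, ← g1.qs_vd, ← g2.qs_vd]
    exact (vd_congr cg1 1).symm
  rw [e1, e2, g1.h_map] at key
  -- transport to the start
  obtain ⟨W1, hW1⟩ : ∃ W1, W1 = vd (wg (fun i => s2.qs (w.p1.qs (z i))) (fun i => s1.qs (u i)) a) k := ⟨_, rfl⟩
  obtain ⟨W0, hW0⟩ : ∃ W0, W0 = vd (wg (fun i => s1.qs (p.qs (z i))) (fun i => s1.qs (u i)) a) k := ⟨_, rfl⟩
  rw [← hW1] at key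
  have lW1 : W1 ≤ Z1 ⊔ V := by
    rw [hW1, ← hZd, hV]
    exact wg_le _ _ a h1
  have lwd : vd (wg (fun i => s2.qs (w.Y i)) (fun i => s1.qs (u i)) a) k ≤ Q0 ⊔ M ⊔ V := by
    refine (wg_le _ _ a h1).trans (sup_le_sup ?_ hV.ge)
    exact (vd_mono _ h1).trans lY
  have lW : W1 ≤ W0 ⊔ (Q0 ⊔ M ⊔ V) := by
    rw [hW1, hW0, vd_le]
    intro i
    have a0 : wg (fun i => s2.qs (w.p1.qs (z i))) (fun i => s1.qs (u i)) a i =
        wg (fun i => s1.qs (p.qs (z i))) (fun i => s1.qs (u i)) a i +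
        wg (fun i => s2.qs (w.Y i)) (fun i => s1.qs (u i)) a i := by
      unfold wg
      beta_reduce
      rw [ez i, ez a]
      ring
    rw [a0]
    refine (dg_add_le _ _ h1).trans (sup_le_sup (dg_le_vd _ k i) ((dg_le_vd _ k i).trans lwd))
  have hV' : V ≤ X' ⊔ Q0 := by
    rw [hV]
    exact U0
  have k1 : h W1 (X' ⊔ M ⊔ Q0) = h W1 (Q1 ⊔ V) := by
    have b1 : I (Z1 ⊔ V) (X' ⊔ M ⊔ Q0) (Q1 ⊔ V) = 0 :=
      ind_of G3 le_sup_left (by order) (by order) (by order)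
    have b2 : I W1 (X' ⊔ M ⊔ Q0) (Q1 ⊔ V) = 0 := ind_of b1 le_rfl (by order) (by order) (by order)
    have b3 := I_zero_iff_h.mp b2
    have b4 : X' ⊔ M ⊔ Q0 ⊔ (Q1 ⊔ V) = X' ⊔ M ⊔ Q0 := by order
    rw [b4] at b3
    exact b3
  have k2 : h W1 (X' ⊔ M ⊔ Q0) ≤ h W0 (X' ⊔ M ⊔ Q0) := by
    have b1 := h_mono (B := X' ⊔ M ⊔ Q0) lW
    have b2 := h_sup_le W0 (Q0 ⊔ M ⊔ V) (X' ⊔ M ⊔ Q0)
    have b3 : h (Q0 ⊔ M ⊔ V) (X' ⊔ M ⊔ Q0) = 0 := h_zero (by order)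
    linarith
  have k3 : h W0 (X' ⊔ M ⊔ Q0) ≤ h W0 (X' ⊔ Q0) := h_anti (by order)
  have k4 : h W0 (X' ⊔ Q0) = h (vd (wg (fun i => p.qs (z i)) u a) k) (X ⊔ p.map (vd q 1)) := by
    rw [← s1.h_map, s1.map_sup, ← hX', ← hQ0, hW0, ← s1.qs_vd]
    congr 1
    exact vd_congr (fun i => (wg_map s1 _ u a i).symm) k
  rw [← k4, ← key, ← k1]
  exact k2.trans k3

end

end Pool.Agent.Helper96.FWC
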