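import Pool.Agent.Helper96.FWC.Quo
import Pool.Agent.Helper31.EC.Rl

/-! Exact entropy calculus: free walks over a flat base. The directions of the walk are those of a bush with unit
determinant, all positions are reached by parallel curves. -/

set_option autoImplicit false

namespace Pool.Agent.Helper96.FWC

open Pool.Agent.Helper31.EC QS Pool.Agent.Helper38.NS Pool.Agent.Helper96.FLT

noncomputable section

variable {S : Sp} {d k : ℕ} {ν : Type} [Fintype ν]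

/-- a type of curves over straight base lines through the point `(q, z)`; `q 0` is the height -/
structure Ty (q : Fin (d + 1) → QS S) (z : ν → QS S) (k : ℕ) where
  a : Fin d → QS S
  x : Fin d → QS S
  c : ν → Fin (k + 1) → QS S
  hy : ∀ i : Fin d, q i.succ = a i + q 0 * x i
  hz : ∀ i, z i = pe (c i) (q 0)
  ht : h (dg (q 0) 1) (vd a 1 ⊔ vd x 1 ⊔ vd (fun i => c i 0) 1) = 1
  hF : ∀ i (j : Fin k), dg (c i j.succ) 1 ≤ vd a 1 ⊔ vd x 1
  h1 : I (vd x 1) (vd q 1 ⊔ vd z 1) ⊥ = 0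

namespace Ty

variable {q : Fin (d + 1) → QS S} {z : ν → QS S} (s : Ty q z k)

def iX : S.L := vd s.x 1
def iL : S.L := vd s.a 1 ⊔ vd s.x 1
def iA : S.L := vd s.a 1 ⊔ vd s.x 1 ⊔ vd (fun i => s.c i 0) 1

/-- direction -/
def v : Fin (d + 1) → QS S := Fin.cons 1 s.x

theorem la : s.iL ≤ vd q 1 ⊔ s.iX := by
  unfold iL iX
  apply sup_le _ le_sup_right
  rw [vd_le]
  intro i
  have h1 : s.a i = q i.succ - q 0 * s.x i := by
    rw [s.hy i]
    ring
  rw [h1]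
  have b1 := dg_sub_le (q i.succ) (q 0 * s.x i) (r := 1) le_rfl
  have b2 := dg_mul_le (q 0) (s.x i) (r := 1) le_rfl
  have b3 := dg_le_vd q 1 i.succ
  have b4 := dg_le_vd q 1 0
  have b5 := dg_le_vd s.x 1 i
  order

theorem lc (i : ν) (j : Fin (k + 1)) : dg (s.c i j) 1 ≤ s.iA := by
  unfold iA
  induction j using Fin.cases with
  | zero => exact (dg_le_vd (fun i => s.c i 0) 1 i).trans le_sup_right
  | succ j => exact (s.hF i j).trans le_sup_left

end Ty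

section bush

variable {q : Fin (d + 1) → QS S} {z : ν → QS S} (s : Fin (d + 1) → Ty q z k) (C : CQ S (Sum.elim q z) d)

/-- all directions of the bush -/
def xs : Fin (d + 1) × Fin d → QS C.W := fun j => (C.p j.1).qs ((s j.1).x j.2)

theorem vd_point : vd (Sum.elim q z) 1 = vd q 1 ⊔ vd z 1 := vd_sum q z 1

theorem C_q (i j : Fin (d + 1)) (l : Fin (d + 1)) : (C.p i).qs (q l) = (C.p j).qs (q l) := C.com i j (Sum.inl l)

theorem C_z (i j : Fin (d + 1)) (l : ν) : (C.p i).qs (z l) = (C.p j).qs (z l) := C.com i j (Sum.inr l)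

theorem C_v : C.v = (C.p 0).map (vd q 1) ⊔ (C.p 0).map (vd z 1) := by
  unfold CQ.v
  rw [vd_point, (C.p 0).map_sup]

theorem xs_sup : vd (xs s C) 1 = Finset.univ.sup fun i => (C.p i).map (s i).iX := by
  apply le_antisymm
  · rw [vd_le]
    rintro ⟨i, l⟩
    refine le_trans ?_ (Finset.le_sup (f := fun i => (C.p i).map (s i).iX) (Finset.mem_univ i))
    unfold Ty.iX
    rw [← (C.p i).qs_vd]
    exact dg_le_vd (fun l => (C.p i).qs ((s i).x l)) 1 l
  · apply Finset.sup_le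
    intro i _
    unfold Ty.iX
    rw [← (C.p i).qs_vd, vd_le]
    intro l
    exact dg_le_vd (xs s C) 1 (i, l)

/-- subfamilies of the directions are independent of the point -/
theorem xs_v (t : Finset (Fin (d + 1))) : I (t.sup fun i => (C.p i).map (s i).iX) C.v ⊥ = 0 := by
  apply ind_of_h
  rw [sup_bot_eq, C.h_sup t fun i => (s i).iX, h_bot]
  have h1 : ∀ i, h (s i).iX (vd (Sum.elim q z) 1) = H (s i).iX := by
    intro i
    have h2 := I_zero_iff_h.mp (s i).h1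
    rw [sup_bot_eq, h_bot] at h2
    rw [vd_point]
    exact h2
  rw [Finset.sum_congr rfl fun i _ => h1 i]
  have h3 := h_finsup_le t (fun i => (C.p i).map (s i).iX) ⊥
  rw [h_bot] at h3
  refine h3.trans (le_of_eq (Finset.sum_congr rfl fun i _ => ?_))
  rw [h_bot, (C.p i).H_map]

theorem xs_point : I (vd (xs s C) 1) C.v ⊥ = 0 := by
  rw [xs_sup]
  exact xs_v s C Finset.univ

/-- the height is real over one curve and all directions -/
theorem ht_bush (m : Fin (d + 1)) : h (dg ((C.p 0).qs (q 0)) 1) ((C.p m).map (s m).iA ⊔ vd (xs s C) 1) = 1 := by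
  classical
  obtain ⟨O, hO⟩ : ∃ O, O = (Finset.univ.erase m).sup fun i => (C.p i).map (s i).iX := ⟨_, rfl⟩
  have h1 : I O C.v ⊥ = 0 := by
    rw [hO]
    exact xs_v s C _
  have h2 : I O ((C.p m).map (s m).iA) C.v = 0 := by
    have h3 := C.I_sup (s := Finset.univ.erase m) (t := {m}) (by simp)
      (fun i => if i = m then (s m).iA else (s i).iX)
    rw [Finset.sup_singleton] at h3
    simp only [if_true] at h3
    have h4 : ((Finset.univ.erase m).sup fun i => (C.p i).map (if i = m then (s m).iA else (s i).iX)) = O := by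
      rw [hO]
      apply Finset.sup_congr rfl
      intro i hi
      rw [if_neg (Finset.ne_of_mem_erase hi)]
    rw [h4] at h3
    exact h3
  have h5 : I O (C.v ⊔ (C.p m).map (s m).iA) ⊥ = 0 := ind_add h1 (by rw [sup_bot_eq]; exact h2) rfl
  have hX : vd (xs s C) 1 ≤ O ⊔ (C.p m).map (s m).iA := by
    rw [xs_sup]
    apply Finset.sup_le
    intro i _
    by_cases hi : i = m
    · subst hi
      refine le_trans ((C.p i).map_mono ?_) le_sup_right
      unfold Ty.iX Ty.iA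
      order
    · refine le_trans ?_ (le_sup_left : O ≤ _)
      rw [hO]
      exact Finset.le_sup (f := fun i => (C.p i).map (s i).iX) (Finset.mem_erase.mpr ⟨hi, Finset.mem_univ i⟩)
  have hT : dg ((C.p 0).qs (q 0)) 1 ≤ C.v := by
    rw [C_v, ← (C.p 0).qs_vd]
    exact (dg_le_vd (fun i => (C.p 0).qs (q i)) 1 0).trans le_sup_left
  have h6 : I (dg ((C.p 0).qs (q 0)) 1) O ((C.p m).map (s m).iA) = 0 :=
    ind_symm (ind_of h5 bot_le (by order) (by order) (by order))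
  have h7 := I_zero_iff_h.mp h6
  have h8 : h (dg ((C.p 0).qs (q 0)) 1) ((C.p m).map (s m).iA) = 1 := by
    rw [C_q C 0 m 0, (C.p m).qs_dg, (C.p m).h_map]
    exact (s m).ht
  apply le_antisymm (h_dg_le_one _ _)
  have h9 : h (dg ((C.p 0).qs (q 0)) 1) (O ⊔ (C.p m).map (s m).iA) ≤
      h (dg ((C.p 0).qs (q 0)) 1) ((C.p m).map (s m).iA ⊔ vd (xs s C) 1) := h_anti (by order)
  rw [h7, h8] at h9
  exact h9

/-- the curve number `m` and all directions -/
def fam (m : Fin (d + 1)) : Fin d ⊕ Fin d ⊕ (ν × Fin (k + 1)) ⊕ (Fin (d + 1) × Fin d) → QS C.W :=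
  Sum.elim (fun i => (C.p m).qs ((s m).a i)) (Sum.elim (fun i => (C.p m).qs ((s m).x i))
    (Sum.elim (fun j => (C.p m).qs ((s m).c j.1 j.2)) (xs s C)))

theorem fam_le (m : Fin (d + 1)) : vd (fam s C m) 1 ≤ (C.p m).map (s m).iA ⊔ vd (xs s C) 1 := by
  unfold fam
  rw [vd_sum, vd_sum, vd_sum]
  have h1 : vd (fun i => (C.p m).qs ((s m).a i)) 1 ≤ (C.p m).map (s m).iA := by
    rw [(C.p m).qs_vd]
    apply (C.p m).map_mono
    unfold Ty.iA
    order
  have h2 : vd (fun i => (C.p m).qs ((s m).x i)) 1 ≤ (C.p m).map (s m).iA := by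
    rw [(C.p m).qs_vd]
    apply (C.p m).map_mono
    unfold Ty.iA
    order
  have h3 : vd (fun j : ν × Fin (k + 1) => (C.p m).qs ((s m).c j.1 j.2)) 1 ≤ (C.p m).map (s m).iA := by
    rw [vd_le]
    intro j
    rw [(C.p m).qs_dg]
    exact (C.p m).map_mono ((s m).lc j.1 j.2)
  order

theorem ht_fam (m : Fin (d + 1)) : h (dg ((C.p 0).qs (q 0)) 1) (vd (fam s C m) 1) = 1 := by
  apply le_antisymm (h_dg_le_one _ _)
  have h1 := h_anti (A := dg ((C.p 0).qs (q 0)) 1) (fam_le s C m)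
  rw [ht_bush] at h1
  exact h1

/-- the direction number `m` of the bush -/
def vv (m : Fin (d + 1)) (l : Fin (d + 1)) : QS C.W := (C.p m).qs ((s m).v l)

/-- `n` steps: `r0` is the bush at the start, `r` the bush at the end, `τ` are the lengths of the steps -/
structure Chn (n : ℕ) (hn : n ≤ d + 1) where
  D : Sp
  r0 : Pj D C.W
  r : Pj D C.W
  τ : Fin n → QS D
  Y : ν → QS D
  cx : ∀ j, r0.qs (xs s C j) = r.qs (xs s C j)
  cq : ∀ l, r.qs ((C.p 0).qs (q l)) = r0.qs ((C.p 0).qs (q l)) +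
    ∑ m : Fin n, τ m * r0.qs (vv s C (Fin.castLE hn m) l)
  cz : ∀ i, r.qs ((C.p 0).qs (z i)) = r0.qs ((C.p 0).qs (z i)) + Y i
  lY : vd Y 1 ≤ r0.map ((C.p 0).map (vd q 1)) ⊔ (r0.map (vd (xs s C) 1) ⊔ vd τ 1)
  hτ : ∀ y : C.W.L, h (vd τ 1) (r0.map y) = n

theorem vd_fin0 {T : Sp} (f : Fin 0 → QS T) (r : ℝ) : vd f r = ⊥ := by
  apply le_antisymm _ bot_le
  rw [vd_le]
  exact fun i => i.elim0

theorem vd_zero {T : Sp} {κ : Type} [Fintype κ] : vd (fun _ : κ => (0 : QS T)) 1 = ⊥ := by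
  apply le_antisymm _ bot_le
  rw [vd_le]
  intro i
  have h1 : (0 : QS T) ∈ QS.Id T 1 := (QS.Id T 1).zero_mem
  exact (dg_of_mem_Id h1 le_rfl le_rfl).le

/-- no step -/
def chn0 : Chn s C 0 (Nat.zero_le _) where
  D := C.W
  r0 := Pj.id _
  r := Pj.id _
  τ := fun i => i.elim0
  Y := fun _ => 0
  cx := fun _ => rfl
  cq := fun l => by rw [Finset.univ_eq_empty, Finset.sum_empty, add_zero]
  cz := fun i => by rw [add_zero]
  lY := by
    rw [vd_zero]
    exact bot_le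
  hτ := fun y => by
    rw [vd_fin0]
    rw [h_zero bot_le]
    simp

theorem vd_snoc {T : Sp} {n : ℕ} (f : Fin n → QS T) (g : QS T) : vd (Fin.snoc f g : Fin (n + 1) → QS T) 1 =
    vd f 1 ⊔ dg g 1 := by
  apply le_antisymm
  · rw [vd_le]
    intro i
    induction i using Fin.lastCases with
    | last =>
      rw [Fin.snoc_last]
      exact le_sup_right
    | cast i =>
      rw [Fin.snoc_castSucc]
      exact (dg_le_vd f 1 i).trans le_sup_left
  · apply sup_le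
    · rw [vd_le]
      intro i
      have h1 := dg_le_vd (Fin.snoc f g : Fin (n + 1) → QS T) 1 i.castSucc
      rw [Fin.snoc_castSucc] at h1
      exact h1
    · have h1 := dg_le_vd (Fin.snoc f g : Fin (n + 1) → QS T) 1 (Fin.last n)
      rw [Fin.snoc_last] at h1
      exact h1

theorem vv_le (m l : Fin (d + 1)) : dg (vv s C m l) 1 ≤ vd (xs s C) 1 := by
  unfold vv Ty.v
  induction l using Fin.cases with
  | zero =>
    rw [Fin.cons_zero, map_one]
    exact (mem_Kn.mp (Kn C.W 1 le_rfl ⊥).one_mem).trans bot_le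
  | succ l =>
    rw [Fin.cons_succ]
    exact dg_le_vd (xs s C) 1 (m, l)

variable {s C}

/-- positions are known to the start, the directions and the lengths -/
theorem Chn.lQ {n : ℕ} {hn : n ≤ d + 1} (w : Chn s C n hn) : w.r.map ((C.p 0).map (vd q 1)) ≤
    w.r0.map ((C.p 0).map (vd q 1)) ⊔ (w.r0.map (vd (xs s C) 1) ⊔ vd w.τ 1) := by
  rw [← (C.p 0).qs_vd, ← w.r.qs_vd, ← w.r0.qs_vd, vd_le]
  intro l
  rw [w.cq l]
  have h0 := dg_le_vd (fun l => w.r0.qs ((C.p 0).qs (q l))) 1 l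
  beta_reduce at h0
  refine (dg_add_le _ _ le_rfl).trans (sup_le (h0.trans le_sup_left) ?_)
  refine le_trans ?_ le_sup_right
  have h1 : ∀ m : Fin n, w.τ m * w.r0.qs (vv s C (Fin.castLE hn m) l) ∈
      Kn w.D 1 le_rfl (w.r0.map (vd (xs s C) 1) ⊔ vd w.τ 1) := by
    intro m
    apply (Kn w.D 1 le_rfl _).mul_mem
    · exact (dg_le_vd w.τ 1 m).trans le_sup_right
    · rw [mem_Kn, w.r0.qs_dg]
      exact (w.r0.map_mono (vv_le s C _ l)).trans le_sup_left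
  exact (Kn w.D 1 le_rfl _).sum_mem fun m _ => h1 m

theorem Chn.eX {n : ℕ} {hn : n ≤ d + 1} (w : Chn s C n hn) : w.r.map (vd (xs s C) 1) = w.r0.map (vd (xs s C) 1) := by
  rw [← w.r.qs_vd, ← w.r0.qs_vd]
  exact vd_congr (fun j => (w.cx j).symm) 1

/-- one more step -/
theorem Chn.step {n : ℕ} {hn : n ≤ d + 1} (w : Chn s C n hn) (hn' : n + 1 ≤ d + 1) : Nonempty (Chn s C (n + 1) hn') := by
  obtain ⟨m, hm⟩ : ∃ m : Fin (d + 1), m = Fin.castLE hn' (Fin.last n) := ⟨_, rfl⟩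
  obtain ⟨E, s1, s2, c, ci, -⟩ := exists_copyF w.r (fam s C m)
  obtain ⟨T', hT'⟩ : ∃ T', T' = s2.qs ((C.p 0).qs (q 0)) := ⟨_, rfl⟩
  obtain ⟨T0, hT0⟩ : ∃ T0, T0 = s1.qs (w.r.qs ((C.p 0).qs (q 0))) := ⟨_, rfl⟩
  have ca : ∀ i, s1.qs (w.r.qs ((C.p m).qs ((s m).a i))) = s2.qs ((C.p m).qs ((s m).a i)) := fun i => c (Sum.inl i)
  have cx : ∀ i, s1.qs (w.r.qs ((C.p m).qs ((s m).x i))) = s2.qs ((C.p m).qs ((s m).x i)) :=
    fun i => c (Sum.inr (Sum.inl i))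
  have cc : ∀ i j, s1.qs (w.r.qs ((C.p m).qs ((s m).c i j))) = s2.qs ((C.p m).qs ((s m).c i j)) :=
    fun i j => c (Sum.inr (Sum.inr (Sum.inl (i, j))))
  have cX : ∀ j, s1.qs (w.r.qs (xs s C j)) = s2.qs (xs s C j) := fun j => c (Sum.inr (Sum.inr (Sum.inr j)))
  -- the new height is free
  have hfree : ∀ y : w.D.L, h (dg (T' - T0) 1) (s1.map y) = 1 := by
    intro y
    apply le_antisymm (h_dg_le_one _ _)
    have b1 := ci (y ⊔ dg (w.r.qs ((C.p 0).qs (q 0))) 1) (dg ((C.p 0).qs (q 0)) 1)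
    have b2 : s1.map (w.r.map (vd (fam s C m) 1)) = s2.map (vd (fam s C m) 1) := by
      rw [← w.r.qs_vd, ← s1.qs_vd, ← s2.qs_vd]
      exact vd_congr c 1
    have b3 : h (dg T' 1) (s2.map (vd (fam s C m) 1)) = 1 := by
      rw [hT', s2.qs_dg, s2.h_map]
      exact ht_fam s C m
    rw [b2, ← s2.qs_dg, ← hT', s1.map_sup, ← s1.qs_dg, ← hT0] at b1
    have b4 := I_zero_iff_h.mp (ind_symm b1)
    rw [b3] at b4
    have b5 : dg T' 1 ≤ dg (T' - T0) 1 ⊔ dg T0 1 := by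
      have b6 : T' = (T' - T0) + T0 := by ring
      conv_lhs => rw [b6]
      exact dg_add_le _ _ le_rfl
    have b7 := h_mono (B := s1.map y ⊔ dg T0 1) b5
    have b8 := h_sup_le (dg (T' - T0) 1) (dg T0 1) (s1.map y ⊔ dg T0 1)
    have b9 : h (dg T0 1) (s1.map y ⊔ dg T0 1) = 0 := h_zero le_sup_right
    have b10 : h (dg T' 1) (s1.map y ⊔ dg T0 1 ⊔ s2.map (vd (fam s C m) 1)) ≤ h (dg T' 1) (s1.map y ⊔ dg T0 1) :=
      h_anti le_sup_left
    have b11 : h (dg (T' - T0) 1) (s1.map y ⊔ dg T0 1) ≤ h (dg (T' - T0) 1) (s1.map y) := h_anti le_sup_left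
    linarith
  have hv : ∀ l, s2.qs ((C.p 0).qs (q l)) = s1.qs (w.r.qs ((C.p 0).qs (q l))) +
      (T' - T0) * s1.qs (w.r.qs (vv s C m l)) := by
    intro l
    unfold vv Ty.v
    induction l using Fin.cases with
    | zero =>
      rw [Fin.cons_zero, map_one, map_one, map_one, ← hT', ← hT0]
      ring
    | succ l =>
      rw [Fin.cons_succ, C_q C 0 m l.succ, (s m).hy l]
      simp only [map_add, map_mul]
      rw [← ca l, ← cx l, C_q C m 0 0, ← hT', ← hT0]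
      ring
  have hvx : ∀ l, s1.qs (w.r.qs (vv s C m l)) = s1.qs (w.r0.qs (vv s C m l)) := by
    intro l
    unfold vv Ty.v
    induction l using Fin.cases with
    | zero => rw [Fin.cons_zero, map_one, map_one, map_one, map_one, map_one]
    | succ l =>
      rw [Fin.cons_succ]
      exact congrArg s1.qs (w.cx (m, l)).symm
  obtain ⟨Yn, hYn⟩ : ∃ Yn : ν → QS E, Yn = fun i => ∑ j : Fin k,
      s1.qs (w.r.qs ((C.p m).qs ((s m).c i j.succ))) * (T' ^ (j.succ : ℕ) - T0 ^ (j.succ : ℕ)) := ⟨_, rfl⟩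
  have hz : ∀ i, s2.qs ((C.p 0).qs (z i)) = s1.qs (w.r.qs ((C.p 0).qs (z i))) + Yn i := by
    intro i
    rw [C_z C 0 m i, (s m).hz i, pe_map, pe_map, pe_map, pe_map, C_q C m 0 0, ← hT', ← hT0, hYn]
    unfold pe
    rw [Fin.sum_univ_succ, Fin.sum_univ_succ]
    simp only [Fin.val_zero, pow_zero, mul_one]
    rw [← cc i 0]
    have e1 : ∀ j : Fin k, s2.qs ((C.p m).qs ((s m).c i j.succ)) = s1.qs (w.r.qs ((C.p m).qs ((s m).c i j.succ))) :=
      fun j => (cc i j.succ).symm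
    simp only [e1, mul_sub]
    rw [Finset.sum_sub_distrib]
    ring
  -- informations
  obtain ⟨Q0, hQ0⟩ : ∃ Q0, Q0 = s1.map (w.r0.map ((C.p 0).map (vd q 1))) := ⟨_, rfl⟩
  obtain ⟨X0, hX0⟩ : ∃ X0, X0 = s1.map (w.r0.map (vd (xs s C) 1)) := ⟨_, rfl⟩
  obtain ⟨R, hR⟩ : ∃ R, R = vd (fun i => s1.qs (w.τ i)) 1 := ⟨_, rfl⟩
  have lQ' : s1.map (w.r.map ((C.p 0).map (vd q 1))) ≤ Q0 ⊔ (X0 ⊔ R) := by
    have h2 := s1.map_mono w.lQ
    rw [s1.map_sup, s1.map_sup, ← hQ0, ← hX0, ← s1.qs_vd, ← hR] at h2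
    exact h2
  have lT0 : dg T0 1 ≤ Q0 ⊔ (X0 ⊔ R) := by
    refine le_trans ?_ lQ'
    rw [hT0, ← (C.p 0).qs_vd, ← w.r.qs_vd, ← s1.qs_vd]
    exact dg_le_vd (fun l => s1.qs (w.r.qs ((C.p 0).qs (q l)))) 1 0
  have lc : ∀ i (j : Fin k), dg (s1.qs (w.r.qs ((C.p m).qs ((s m).c i j.succ)))) 1 ≤ Q0 ⊔ (X0 ⊔ R) := by
    intro i j
    rw [s1.qs_dg, w.r.qs_dg, (C.p m).qs_dg]
    have b1 : dg ((s m).c i j.succ) 1 ≤ vd q 1 ⊔ (s m).iX := ((s m).hF i j).trans (s m).la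
    have b2 := s1.map_mono (w.r.map_mono ((C.p m).map_mono b1))
    rw [(C.p m).map_sup, w.r.map_sup, s1.map_sup] at b2
    have b3 : (C.p m).map (vd q 1) = (C.p 0).map (vd q 1) := by
      rw [← (C.p m).qs_vd, ← (C.p 0).qs_vd]
      exact vd_congr (fun l => C_q C m 0 l) 1
    have b4 : (C.p m).map (s m).iX ≤ vd (xs s C) 1 := by
      rw [xs_sup]
      exact Finset.le_sup (f := fun i => (C.p i).map (s i).iX) (Finset.mem_univ m)
    have b5 : s1.map (w.r.map ((C.p m).map (s m).iX)) ≤ X0 := by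
      rw [hX0, ← w.eX]
      exact s1.map_mono (w.r.map_mono b4)
    rw [b3] at b2
    order
  obtain ⟨G, hG⟩ : ∃ G, G = Q0 ⊔ (X0 ⊔ (R ⊔ dg (T' - T0) 1)) := ⟨_, rfl⟩
  have lYn : ∀ i, dg (Yn i) 1 ≤ G := by
    intro i
    rw [hYn]
    apply (Kn E 1 le_rfl G).sum_mem
    intro j _
    have b2 : T0 ∈ Kn E 1 le_rfl G := by
      rw [mem_Kn, hG]
      exact lT0.trans (sup_le_sup_left (sup_le_sup_left le_sup_left _) _)
    have b1 : T' ∈ Kn E 1 le_rfl G := by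
      have b6 : T' - T0 ∈ Kn E 1 le_rfl G := by
        rw [mem_Kn, hG]
        exact le_sup_right.trans (le_sup_right.trans le_sup_right)
      have b7 := (Kn E 1 le_rfl G).add_mem b6 b2
      rw [sub_add_cancel] at b7
      exact b7
    apply (Kn E 1 le_rfl G).mul_mem
    · rw [mem_Kn, hG]
      exact (lc i j).trans (sup_le_sup_left (sup_le_sup_left le_sup_left _) _)
    · exact (Kn E 1 le_rfl G).sub_mem ((Kn E 1 le_rfl G).pow_mem b1 _) ((Kn E 1 le_rfl G).pow_mem b2 _)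
  refine ⟨⟨E, s1.comp w.r0, s2, Fin.snoc (fun i => s1.qs (w.τ i)) (T' - T0), fun i => s1.qs (w.Y i) + Yn i,
    ?_, ?_, ?_, ?_, ?_⟩⟩
  · intro j
    rw [Pj.comp_qs, w.cx j, cX j]
  · intro l
    rw [hv l, w.cq l, Fin.sum_univ_castSucc]
    simp only [Fin.snoc_castSucc, Fin.snoc_last, Pj.comp_qs]
    rw [map_add, map_sum, hvx l, ← hm, add_assoc]
    congr 1
    congr 1
    apply Finset.sum_congr rfl
    intro j _
    rw [map_mul]
    rfl
  · intro i
    rw [hz i, w.cz i, map_add, Pj.comp_qs, add_assoc]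
  · rw [Pj.comp_map, Pj.comp_map, ← hQ0, ← hX0, vd_snoc, ← hR, ← hG, vd_le]
    intro i
    refine (dg_add_le _ _ le_rfl).trans (sup_le ?_ (lYn i))
    have b1 := s1.map_mono w.lY
    rw [s1.map_sup, s1.map_sup, ← hQ0, ← hX0, ← s1.qs_vd, ← s1.qs_vd, ← hR] at b1
    have b2 := dg_le_vd (fun i => s1.qs (w.Y i)) 1 i
    beta_reduce at b2
    rw [hG]
    exact (b2.trans b1).trans (sup_le_sup_left (sup_le_sup_left le_sup_left _) _)
  · intro y
    rw [Pj.comp_map, vd_snoc, h_chain]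
    have b1 : h (vd (fun i => s1.qs (w.τ i)) 1) (s1.map (w.r0.map y)) = n := by
      rw [s1.qs_vd, s1.h_map]
      exact w.hτ y
    have b2 : h (dg (T' - T0) 1) (vd (fun i => s1.qs (w.τ i)) 1 ⊔ s1.map (w.r0.map y)) = 1 := by
      rw [s1.qs_vd, ← s1.map_sup]
      exact hfree _
    rw [b1, b2]
    push_cast
    ring

variable (s C)

theorem exists_chn (n : ℕ) (hn : n ≤ d + 1) : Nonempty (Chn s C n hn) := by
  induction n with
  | zero => exact ⟨chn0 s C⟩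
  | succ n ih =>
    obtain ⟨w⟩ := ih (Nat.le_of_succ_le hn)
    exact w.step hn

theorem H_vd_le {T : Sp} {κ : Type} [Fintype κ] (f : κ → QS T) (A : T.L) : h (vd f 1) A ≤ Fintype.card κ := by
  have h1 := h_sd_le f Finset.univ A
  rw [sd_univ] at h1
  exact h1

variable {s C}

/-- the lengths from the positions and the directions -/
theorem Chn.lτ {hn : d + 1 ≤ d + 1} (w : Chn s C (d + 1) hn) (hdet : IsUnit (Matrix.of (vv s C)).det) :
    vd w.τ 1 ≤ w.r.map ((C.p 0).map (vd q 1)) ⊔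
      (w.r0.map ((C.p 0).map (vd q 1)) ⊔ w.r0.map (vd (xs s C) 1)) := by
  obtain ⟨M, hM⟩ : ∃ M : Matrix (Fin (d + 1)) (Fin (d + 1)) (QS w.D), M = (Matrix.of (vv s C)).map w.r0.qs := ⟨_, rfl⟩
  obtain ⟨G, hG⟩ : ∃ G, G = w.r.map ((C.p 0).map (vd q 1)) ⊔
      (w.r0.map ((C.p 0).map (vd q 1)) ⊔ w.r0.map (vd (xs s C) 1)) := ⟨_, rfl⟩
  have hu : IsUnit M.det := by
    have h1 := hdet.map w.r0.qs
    rw [RingHom.map_det] at h1
    rw [hM]
    exact h1
  have hMm : ∀ i j, dg (M i j) 1 ≤ G := by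
    intro i j
    rw [hM, Matrix.map_apply, Matrix.of_apply, w.r0.qs_dg, hG]
    exact (w.r0.map_mono (vv_le s C i j)).trans (le_sup_right.trans le_sup_right)
  have hi := inv_mem M le_rfl G hMm hu
  obtain ⟨δ, hδ⟩ : ∃ δ : Fin (d + 1) → QS w.D, δ = fun l => w.r.qs ((C.p 0).qs (q l)) - w.r0.qs ((C.p 0).qs (q l)) :=
    ⟨_, rfl⟩
  have e1 : δ = Matrix.vecMul w.τ M := by
    funext l
    rw [hδ, Matrix.vecMul, hM]
    beta_reduce
    rw [w.cq l, add_sub_cancel_left]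
    rfl
  have e2 : w.τ = Matrix.vecMul δ M⁻¹ := by
    rw [e1, Matrix.vecMul_vecMul, Matrix.mul_nonsing_inv M hu, Matrix.vecMul_one]
  have e3 : ∀ m, w.τ m = ∑ l, δ l * M⁻¹ l m := by
    intro m
    rw [e2]
    rfl
  have e4 : ∀ l, δ l ∈ Kn w.D 1 le_rfl G := by
    intro l
    rw [hδ]
    apply (Kn w.D 1 le_rfl G).sub_mem
    · rw [mem_Kn, hG]
      refine le_trans ?_ le_sup_left
      rw [← (C.p 0).qs_vd, ← w.r.qs_vd]
      exact dg_le_vd (fun l => w.r.qs ((C.p 0).qs (q l))) 1 l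
    · rw [mem_Kn, hG]
      refine le_trans ?_ (le_sup_left.trans le_sup_right)
      rw [← (C.p 0).qs_vd, ← w.r0.qs_vd]
      exact dg_le_vd (fun l => w.r0.qs ((C.p 0).qs (q l))) 1 l
  have e5 : ∀ m, ∑ l, δ l * M⁻¹ l m ∈ Kn w.D 1 le_rfl G := fun m =>
    (Kn w.D 1 le_rfl G).sum_mem fun l _ => (Kn w.D 1 le_rfl G).mul_mem (e4 l) (mem_Kn.mpr (hi l m))
  rw [← hG, vd_le]
  intro m
  rw [e3 m]
  exact mem_Kn.mp (e5 m)

/-- the end point is independent of the start -/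
theorem ind_end {L : Type*} [PM L] {Q Z X R T : L} {c : ℝ} (ht : h T (Q ⊔ Z ⊔ X) = c) (lT : T ≤ R ⊔ (Q ⊔ X))
    (hR : h R ⊥ ≤ c) : I R (Q ⊔ Z) ⊥ = 0 := by
  apply ind_of_h
  refine hR.trans ?_
  rw [sup_bot_eq, ← ht]
  have h0 : T ≤ R ⊔ (Q ⊔ Z ⊔ X) := by order
  have h1 := h_mono (B := Q ⊔ Z ⊔ X) h0
  have h2 := h_sup_le R (Q ⊔ Z ⊔ X) (Q ⊔ Z ⊔ X)
  have h3 : h (Q ⊔ Z ⊔ X) (Q ⊔ Z ⊔ X) = 0 := h_zero le_rfl
  have h4 : h R (Q ⊔ Z ⊔ X) ≤ h R (Q ⊔ Z) := h_anti le_sup_left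
  linarith

theorem ind_start {L : Type*} [PM L] {Q Z X T : L} (A1 : I X (Q ⊔ Z) ⊥ = 0) (A2 : I T (Q ⊔ Z ⊔ X) ⊥ = 0) :
    I Z (X ⊔ T) Q = 0 := by
  refine ind_add (C' := X ⊔ Q) (ind_symm (ind_of A1 bot_le (by order) le_sup_left (by order))) ?_ rfl
  exact ind_symm (ind_of A2 bot_le (by order) le_sup_left (by order))

variable (s C)

/-- FREE WALKS: if there is a bush with unit determinant then there is a free walk -/
theorem exists_wk (hdet : IsUnit (Matrix.of (vv s C)).det) : Nonempty (Wk q z) := by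
  obtain ⟨w⟩ := exists_chn s C (d + 1) le_rfl
  have A1 : I (w.r0.map (vd (xs s C) 1)) (w.r0.map ((C.p 0).map (vd q 1)) ⊔ w.r0.map ((C.p 0).map (vd z 1))) ⊥ = 0 := by
    have h1 := w.r0.I_map (vd (xs s C) 1) C.v ⊥
    rw [xs_point, w.r0.map_bot, C_v, w.r0.map_sup] at h1
    exact h1
  have hQZ : w.r0.map ((C.p 0).map (vd q 1)) ⊔ w.r0.map ((C.p 0).map (vd z 1)) ⊔ w.r0.map (vd (xs s C) 1) =
      w.r0.map ((C.p 0).map (vd q 1) ⊔ (C.p 0).map (vd z 1) ⊔ vd (xs s C) 1) := by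
    rw [w.r0.map_sup, w.r0.map_sup]
  have t1 : h (vd w.τ 1) (w.r0.map ((C.p 0).map (vd q 1)) ⊔ w.r0.map ((C.p 0).map (vd z 1)) ⊔
      w.r0.map (vd (xs s C) 1)) = ((d + 1 : ℕ) : ℝ) := by
    rw [hQZ]
    exact w.hτ _
  have A2 : I (vd w.τ 1) (w.r0.map ((C.p 0).map (vd q 1)) ⊔ w.r0.map ((C.p 0).map (vd z 1)) ⊔
      w.r0.map (vd (xs s C) 1)) ⊥ = 0 := by
    apply ind_of_h
    rw [sup_bot_eq, t1]
    have h1 := H_vd_le w.τ ⊥
    rw [Fintype.card_fin] at h1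
    exact h1
  have hRr : h (w.r.map ((C.p 0).map (vd q 1))) ⊥ ≤ ((d + 1 : ℕ) : ℝ) := by
    rw [← (C.p 0).qs_vd, ← w.r.qs_vd]
    have h1 := H_vd_le (fun l => w.r.qs ((C.p 0).qs (q l))) ⊥
    rw [Fintype.card_fin] at h1
    exact h1
  have A3 := ind_end t1 (w.lτ hdet) hRr
  have A4 := ind_start A1 A2
  refine ⟨⟨w.D, w.r0.comp (C.p 0), w.r.comp (C.p 0), w.r0.map (vd (xs s C) 1) ⊔ vd w.τ 1, w.Y, ?_, ?_, ?_, ?_, ?_⟩⟩
  · intro i
    rw [Pj.comp_qs, Pj.comp_qs]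
    exact w.cz i
  · rw [Pj.comp_map]
    exact w.lY
  · rw [Pj.comp_map, Pj.comp_map]
    exact w.lQ
  · rw [Pj.comp_map, Pj.comp_map]
    exact A4
  · rw [Pj.comp_map, Pj.comp_map, (C.p 0).map_sup, w.r0.map_sup]
    exact A3

end bush

end

end Pool.Agent.Helper96.FWC
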